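import Pool.Agent.R230.Car.Norm

set_option autoImplicit false

namespace Pool.Agent.Results.MP_45ee41_an.NoUniformBound

open Real MeasureTheory Set Filter Topology Pool.Agent.R230.Car

/-- The truncated integral, over `δ < |x - y| < 1 / δ`, of
`exp (i lam |x - y| ^ eps) / (x - y) * f y`. -/
noncomputable def trunc (eps lam : ℝ) (f : ℝ → ℂ) (x δ : ℝ) : ℂ :=
  ∫ y in {y : ℝ | δ < |x - y| ∧ |x - y| < 1 / δ},
    Complex.exp (Complex.I * ((lam * |x - y| ^ eps : ℝ) : ℂ)) / ((x - y : ℝ) : ℂ) * f y

/-- The operator `H_(eps, lam)`: the limit of the truncated integrals as `δ → 0+`. -/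
noncomputable def H (eps lam : ℝ) (f : ℝ → ℂ) (x : ℝ) : ℂ :=
  limUnder (𝓝[>] (0 : ℝ)) (trunc eps lam f x)

/-- The maximal operator: the supremum over all real `lam` of `|H_(eps, lam) f x|`. -/
noncomputable def maxOp (eps : ℝ) (f : ℝ → ℂ) (x : ℝ) : ENNReal := ⨆ lam : ℝ, ‖H eps lam f x‖ₑ

/-- the weight. -/
noncomputable def wt (eps lam t : ℝ) : ℂ := Complex.exp (Complex.I * ((lam * t ^ eps : ℝ) : ℂ))

theorem norm_wt (eps lam t : ℝ) : ‖wt eps lam t‖ = 1 := by
  unfold wt
  rw [mul_comm, Complex.norm_exp_ofReal_mul_I]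

theorem measurable_wt (eps lam : ℝ) : Measurable (wt eps lam) := by
  unfold wt
  fun_prop

theorem trunc_eq (eps lam : ℝ) {f : ℝ → ℂ} {B : NNReal} (hB : LipschitzWith B f) {R : ℝ}
    (hR : ∀ y, R ≤ |y| → f y = 0) (x : ℝ) {δ : ℝ} (hδ : 0 < δ) :
    trunc eps lam f x δ
      = ∫ t in Ioi (0 : ℝ), (Ioo δ (1 / δ)).indicator (fun t => wt eps lam t * dq f x t) t := by
  set S : Set ℝ := {t : ℝ | δ < |t| ∧ |t| < 1 / δ} with hS
  have hSm : MeasurableSet S := by
    apply MeasurableSet.inter
    · exact measurableSet_lt measurable_const continuous_abs.measurable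
    · exact measurableSet_lt continuous_abs.measurable measurable_const
  set Phi : ℝ → ℂ := S.indicator (fun t => Complex.exp (Complex.I * ((lam * |t| ^ eps : ℝ) : ℂ))
    / ((t : ℝ) : ℂ) * f (x - t)) with hPhi
  have e1 : trunc eps lam f x δ = ∫ y, Phi (x - y) := by
    unfold trunc
    rw [← integral_indicator]
    · congr 1
      ext y
      simp only [hPhi, indicator]
      have : (y ∈ {y : ℝ | δ < |x - y| ∧ |x - y| < 1 / δ}) ↔ (x - y ∈ S) := Iff.rfl
      simp only [this, sub_sub_cancel]
    · have : {y : ℝ | δ < |x - y| ∧ |x - y| < 1 / δ} = (fun y => x - y) ⁻¹' S := rfl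
      rw [this]
      exact hSm.preimage (by fun_prop)
  have hmeas : Measurable Phi := by
    apply Measurable.indicator _ hSm
    have := hB.continuous.measurable
    fun_prop
  obtain ⟨C, hC⟩ : ∃ C, ∀ y, ‖f y‖ ≤ C := by
    have hcs : HasCompactSupport f := by
      apply HasCompactSupport.of_support_subset_isCompact (isCompact_closedBall (0 : ℝ) R)
      intro y hy
      by_contra h
      apply hy
      apply hR
      rw [Metric.mem_closedBall, Real.dist_eq, sub_zero, not_le] at h
      exact h.le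
    exact hB.continuous.bounded_above_of_compact_support hcs
  have hint : Integrable Phi := by
    have hsub : S ⊆ Icc (-(1 / δ)) (1 / δ) := by
      intro t ht
      exact abs_le.mp ht.2.le
    have h1 : IntegrableOn Phi (Icc (-(1 / δ)) (1 / δ)) := by
      apply Measure.integrableOn_of_bounded (M := 1 / δ * C)
      · simp
      · exact hmeas.aestronglyMeasurable
      · filter_upwards with t
        have hC0 : 0 ≤ C := (norm_nonneg _).trans (hC 0)
        by_cases ht : t ∈ S
        · simp only [hPhi]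
          rw [indicator_of_mem ht, norm_mul, norm_div, Complex.norm_real, Real.norm_eq_abs,
            mul_comm Complex.I, Complex.norm_exp_ofReal_mul_I]
          apply mul_le_mul _ (hC _) (norm_nonneg _) (by positivity)
          exact one_div_le_one_div_of_le hδ ht.1.le
        · simp only [hPhi]
          rw [indicator_of_notMem ht, norm_zero]
          positivity
    rw [← integrableOn_univ]
    apply h1.of_forall_sdiff_eq_zero MeasurableSet.univ
    intro t ht
    simp only [hPhi]
    apply indicator_of_notMem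
    intro h
    exact ht.2 (hsub h)
  rw [e1, integral_sub_left_eq_self Phi volume x,
    ← intervalIntegral.integral_Iic_add_Ioi (b := (0 : ℝ)) hint.integrableOn hint.integrableOn]
  have e2 : ∫ t in Iic (0 : ℝ), Phi t = ∫ t in Ioi (0 : ℝ), Phi (-t) := by
    rw [integral_comp_neg_Ioi, neg_zero]
  rw [e2, ← integral_add]
  · apply setIntegral_congr_fun measurableSet_Ioi
    intro t ht
    have ht0 : 0 < t := ht
    have m1 : t ∈ S ↔ t ∈ Ioo δ (1 / δ) := by
      simp only [hS, mem_Ioo, Set.mem_ofPred_eq, abs_of_pos ht0]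
    have m2 : -t ∈ S ↔ t ∈ Ioo δ (1 / δ) := by
      simp only [hS, mem_Ioo, Set.mem_ofPred_eq, abs_neg, abs_of_pos ht0]
    by_cases h : t ∈ Ioo δ (1 / δ)
    · simp only [hPhi]
      rw [indicator_of_mem (m1.mpr h), indicator_of_mem (m2.mpr h), indicator_of_mem h, abs_neg,
        abs_of_pos ht0, sub_neg_eq_add]
      unfold wt dq
      push_cast
      ring
    · simp only [hPhi]
      rw [indicator_of_notMem (fun h' => h (m1.mp h')), indicator_of_notMem (fun h' => h (m2.mp h')),
        indicator_of_notMem h, add_zero]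
  · exact (hint.comp_neg).integrableOn
  · exact hint.integrableOn

theorem tendsto_trunc (eps lam : ℝ) {f : ℝ → ℂ} {B : NNReal} (hB : LipschitzWith B f) {R : ℝ}
    (hR : ∀ y, R ≤ |y| → f y = 0) (x : ℝ) :
    Tendsto (trunc eps lam f x) (𝓝[>] 0) (𝓝 (T (wt eps lam) f x)) := by
  have hint := integrableOn_mul_dq (measurable_wt eps lam) (fun t => (norm_wt eps lam t).le) hB hR x
  have h1 : Tendsto (fun δ : ℝ => ∫ t in Ioi (0 : ℝ),
      (Ioo δ (1 / δ)).indicator (fun t => wt eps lam t * dq f x t) t) (𝓝[>] 0)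
      (𝓝 (T (wt eps lam) f x)) := by
    unfold T
    apply tendsto_integral_filter_of_dominated_convergence (fun t => ‖wt eps lam t * dq f x t‖)
    · filter_upwards with δ
      exact hint.aestronglyMeasurable.indicator measurableSet_Ioo
    · filter_upwards with δ
      filter_upwards with t
      exact norm_indicator_le_norm_self _ _
    · exact hint.norm
    · filter_upwards [ae_restrict_mem measurableSet_Ioi] with t ht
      have ht0 : 0 < t := ht
      apply tendsto_const_nhds.congr'
      have h1 : ∀ᶠ δ in 𝓝[>] (0 : ℝ), δ < t :=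
        mem_nhdsWithin_of_mem_nhds (Iio_mem_nhds ht0)
      have h2 : ∀ᶠ δ in 𝓝[>] (0 : ℝ), δ < 1 / t :=
        mem_nhdsWithin_of_mem_nhds (Iio_mem_nhds (by positivity))
      filter_upwards [h1, h2, self_mem_nhdsWithin] with δ h1 h2 h3
      have h3' : 0 < δ := h3
      rw [indicator_of_mem]
      refine ⟨h1, ?_⟩
      rw [lt_div_iff₀ h3']
      rw [lt_div_iff₀ ht0] at h2
      linarith
  refine h1.congr' ?_
  filter_upwards [self_mem_nhdsWithin] with δ hδ
  exact (trunc_eq eps lam hB hR x hδ).symm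

/-- the difference of the two weights, for a given small `eps`. -/
noncomputable def err (mu eps : ℝ) : ℝ :=
  ∫ t in Ioc (0 : ℝ) 4, ‖Complex.exp (Complex.I * ((mu * ((t ^ eps - 1) / eps) : ℝ) : ℂ)) - E mu t‖

theorem tendsto_err (mu : ℝ) : Tendsto (err mu) (𝓝[>] 0) (𝓝 0) := by
  suffices h : Tendsto (err mu) (𝓝[>] 0) (𝓝 (∫ t in Ioc (0 : ℝ) 4, (0 : ℝ))) by simpa using h
  unfold err
  apply tendsto_integral_filter_of_dominated_convergence (fun _ => (2 : ℝ))
  · filter_upwards with eps
    apply Measurable.aestronglyMeasurable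
    have := measurable_E mu
    fun_prop
  · filter_upwards with eps
    filter_upwards with t
    rw [norm_norm]
    calc _ ≤ ‖Complex.exp (Complex.I * ((mu * ((t ^ eps - 1) / eps) : ℝ) : ℂ))‖ + ‖E mu t‖ :=
          norm_sub_le _ _
      _ = 2 := by
        rw [norm_E, mul_comm Complex.I, Complex.norm_exp_ofReal_mul_I]
        norm_num
  · simp
  · filter_upwards [ae_restrict_mem measurableSet_Ioc] with t ht
    have ht0 : 0 < t := ht.1
    have h1 : Tendsto (fun eps : ℝ => (t ^ eps - 1) / eps) (𝓝[>] 0) (𝓝 (Real.log t)) := by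
      have hd : HasDerivAt (fun eps : ℝ => t ^ eps) (Real.log t) 0 := by
        have := (hasDerivAt_id (0 : ℝ)).const_rpow ht0
        simpa using this
      have h2 := hd.tendsto_slope
      have h3 : Tendsto (slope (fun eps : ℝ => t ^ eps) 0) (𝓝[>] 0) (𝓝 (Real.log t)) :=
        h2.mono_left (nhdsWithin_mono _ (fun y hy => (ne_of_gt hy)))
      refine h3.congr fun eps => ?_
      rw [slope_def_field]
      simp
    have h2 : Tendsto (fun eps : ℝ =>
        Complex.exp (Complex.I * ((mu * ((t ^ eps - 1) / eps) : ℝ) : ℂ)) - E mu t) (𝓝[>] 0)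
        (𝓝 (E mu t - E mu t)) := by
      apply Tendsto.sub_const
      unfold E
      have hc : Continuous fun r : ℝ => Complex.exp (Complex.I * ((mu * r : ℝ) : ℂ)) := by
        fun_prop
      exact (hc.tendsto _).comp h1
    rw [sub_self] at h2
    simpa using h2.norm

theorem T_diff {f : ℝ → ℂ} {B : NNReal} (hB : LipschitzWith B f)
    (hR : ∀ y, 3 ≤ |y| → f y = 0) {x : ℝ} (hx : |x| ≤ 1) (mu : ℝ) {eps : ℝ} (_heps : 0 < eps) :
    ‖T (E mu) f x‖ ≤ ‖T (wt eps (mu / eps)) f x‖ + 2 * B * err mu eps := by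
  set c : ℂ := Complex.exp (Complex.I * ((mu / eps : ℝ) : ℂ)) with hc
  have hcn : ‖c‖ = 1 := by
    rw [hc, mul_comm, Complex.norm_exp_ofReal_mul_I]
  have i1 := integrableOn_mul_dq (measurable_wt eps (mu / eps))
    (fun t => (norm_wt eps (mu / eps) t).le) hB hR x
  have i2 := integrableOn_mul_dq (measurable_E mu) (fun t => (norm_E mu t).le) hB hR x
  have e1 : c * T (E mu) f x - T (wt eps (mu / eps)) f x
      = ∫ t in Ioi (0 : ℝ), (c * E mu t - wt eps (mu / eps) t) * dq f x t := by
    unfold T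
    rw [← integral_const_mul, ← integral_sub (i2.const_mul c) i1]
    congr 1
    ext t
    ring
  have e2 : ‖∫ t in Ioi (0 : ℝ), (c * E mu t - wt eps (mu / eps) t) * dq f x t‖
      ≤ 2 * B * err mu eps := by
    have hw : ∀ t, ‖c * E mu t - wt eps (mu / eps) t‖
        = ‖Complex.exp (Complex.I * ((mu * ((t ^ eps - 1) / eps) : ℝ) : ℂ)) - E mu t‖ := by
      intro t
      have : wt eps (mu / eps) t
          = c * Complex.exp (Complex.I * ((mu * ((t ^ eps - 1) / eps) : ℝ) : ℂ)) := by
        unfold wt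
        rw [hc, ← Complex.exp_add]
        congr 1
        push_cast
        field_simp
        ring
      rw [this, ← mul_sub, norm_mul, hcn, one_mul, norm_sub_rev]
    have hb : ∀ t ∈ Ioi (0 : ℝ), ‖(c * E mu t - wt eps (mu / eps) t) * dq f x t‖
        ≤ (Ioc (0 : ℝ) 4).indicator (fun t => 2 * B *
          ‖Complex.exp (Complex.I * ((mu * ((t ^ eps - 1) / eps) : ℝ) : ℂ)) - E mu t‖) t := by
      intro t ht
      rw [norm_mul, hw]
      by_cases h4 : t ≤ 4
      · rw [indicator_of_mem (show t ∈ Ioc (0 : ℝ) 4 from ⟨ht, h4⟩), mul_comm]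
        exact mul_le_mul_of_nonneg_right (norm_dq_le hB x ht) (norm_nonneg _)
      · rw [dq_eq_zero hR (by linarith [not_le.mp h4] : (3 : ℝ) + |x| ≤ t), norm_zero, mul_zero]
        apply indicator_nonneg
        intro s _
        positivity
    have hii : IntegrableOn (fun t => 2 * B *
        ‖Complex.exp (Complex.I * ((mu * ((t ^ eps - 1) / eps) : ℝ) : ℂ)) - E mu t‖)
        (Ioc (0 : ℝ) 4) := by
      apply Measure.integrableOn_of_bounded (M := 2 * B * 2)
      · simp
      · apply Measurable.aestronglyMeasurable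
        have := measurable_E mu
        fun_prop
      · filter_upwards with t
        rw [Real.norm_of_nonneg (by positivity)]
        apply mul_le_mul_of_nonneg_left _ (by positivity)
        calc _ ≤ ‖Complex.exp (Complex.I * ((mu * ((t ^ eps - 1) / eps) : ℝ) : ℂ))‖ + ‖E mu t‖ :=
              norm_sub_le _ _
          _ = 2 := by
            rw [norm_E, mul_comm Complex.I, Complex.norm_exp_ofReal_mul_I]
            norm_num
    calc _ ≤ ∫ t in Ioi (0 : ℝ), (Ioc (0 : ℝ) 4).indicator (fun t => 2 * B *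
          ‖Complex.exp (Complex.I * ((mu * ((t ^ eps - 1) / eps) : ℝ) : ℂ)) - E mu t‖) t := by
          apply norm_integral_le_of_norm_le
          · apply IntegrableOn.integrable_indicator _ measurableSet_Ioc |>.integrableOn
            exact hii
          · filter_upwards [ae_restrict_mem measurableSet_Ioi] with t ht using hb t ht
      _ = 2 * B * err mu eps := by
          rw [setIntegral_indicator measurableSet_Ioc, inter_eq_right.mpr Ioc_subset_Ioi_self,
            integral_const_mul]
          rfl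
  have e3 : ‖T (E mu) f x‖ = ‖c * T (E mu) f x‖ := by rw [norm_mul, hcn, one_mul]
  rw [e3]
  have := norm_sub_norm_le (c * T (E mu) f x) (T (wt eps (mu / eps)) f x)
  rw [e1] at this
  linarith

/-- **Full negative answer.** The principal values exist, and for every constant `C` and every
sufficiently small `eps > 0` there is a smooth compactly supported `f` with
`‖maxOp eps f‖_2 > C ‖f‖_2`. -/
theorem result :
    (∀ f : ℝ → ℂ, ContDiff ℝ (⊤ : ℕ∞) f → HasCompactSupport f → ∀ eps lam x : ℝ, 0 < eps →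
      Tendsto (trunc eps lam f x) (𝓝[>] 0) (𝓝 (H eps lam f x))) ∧
    ∀ C : ℝ, ∃ eps0 : ℝ, 0 < eps0 ∧ ∀ eps : ℝ, 0 < eps → eps < eps0 →
      ∃ f : ℝ → ℂ, ContDiff ℝ (⊤ : ℕ∞) f ∧ HasCompactSupport f ∧
        ENNReal.ofReal C * eLpNorm f 2 volume < eLpNorm (maxOp eps f) 2 volume := by
  constructor
  · intro f hf hc eps lam x _
    obtain ⟨B, hB⟩ : ∃ C, LipschitzWith C f :=
      ContDiff.lipschitzWith_of_hasCompactSupport hc hf (by simp)
    obtain ⟨R, hR⟩ : ∃ R : ℝ, ∀ y, R ≤ |y| → f y = 0 := by
      obtain ⟨r, hr⟩ := hc.isCompact.isBounded.subset_closedBall (0 : ℝ)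
      refine ⟨r + 1, fun y hy => ?_⟩
      by_contra h
      have := hr (subset_tsupport f h)
      rw [Metric.mem_closedBall, Real.dist_eq, sub_zero] at this
      linarith
    have h := tendsto_trunc eps lam hB hR x
    unfold H
    rw [h.limUnder_eq]
    exact h
  · intro C
    have hA := A_pos
    obtain ⟨K, hK⟩ := exists_nat_gt (16 * π * C ^ 2 / A ^ 2)
    obtain ⟨q, hq, hlow⟩ := lower K
    set f := fq K q with hf
    obtain ⟨B, hB⟩ : ∃ C, LipschitzWith C f :=
      ContDiff.lipschitzWith_of_hasCompactSupport (fq_compact K q) (fq_smooth K q) (by simp)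
    have hR : ∀ y, 3 ≤ |y| → f y = 0 := fun y hy => fq_zero K q hy
    have hK0 : (0 : ℝ) < K := lt_of_le_of_lt (by positivity) hK
    have ev : ∀ᶠ eps in 𝓝[>] (0 : ℝ), ∀ j ∈ Finset.range (8 ^ K),
        2 * B * err (muj K q j) eps ≤ A * K / 4 := by
      rw [Filter.eventually_all_finset]
      intro j _
      have h1 := (tendsto_err (muj K q j)).const_mul (2 * B : ℝ)
      rw [mul_zero] at h1
      exact h1.eventually_le_const (by positivity)
    obtain ⟨eps0, heps0, hev⟩ := (mem_nhdsGT_iff_exists_Ioo_subset).mp ev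
    refine ⟨eps0, heps0, fun eps he1 he2 => ⟨f, fq_smooth K q, fq_compact K q, ?_⟩⟩
    have hev' := hev ⟨he1, he2⟩
    have hptw : ∀ x ∈ Icc (-1 : ℝ) 1, ENNReal.ofReal (A * K / 4) ≤ maxOp eps f x := by
      intro x hx
      have hx1 : |x| ≤ 1 := abs_le.mpr hx
      obtain ⟨j, hj, hjb⟩ := hlow x hx1
      have h1 := T_diff hB hR hx1 (muj K q j) he1
      have h2 := hev' j (Finset.mem_range.mpr hj)
      have h3 : A * K / 4 ≤ ‖T (wt eps (muj K q j / eps)) f x‖ := by linarith
      have h4 : H eps (muj K q j / eps) f x = T (wt eps (muj K q j / eps)) f x :=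
        (tendsto_trunc eps (muj K q j / eps) hB hR x).limUnder_eq
      calc ENNReal.ofReal (A * K / 4) ≤ ENNReal.ofReal ‖T (wt eps (muj K q j / eps)) f x‖ :=
            ENNReal.ofReal_le_ofReal h3
        _ = ‖H eps (muj K q j / eps) f x‖ₑ := by rw [h4, ofReal_norm]
        _ ≤ maxOp eps f x := le_iSup (fun lam : ℝ => ‖H eps lam f x‖ₑ) (muj K q j / eps)
    have hbig : ENNReal.ofReal (A ^ 2 * K ^ 2 / 8) ≤ ∫⁻ x, (maxOp eps f x) ^ 2 := by
      calc ENNReal.ofReal (A ^ 2 * K ^ 2 / 8)
          = ∫⁻ x in Icc (-1 : ℝ) 1, ENNReal.ofReal (A * K / 4) ^ 2 := by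
            rw [setLIntegral_const, Real.volume_Icc, ← ENNReal.ofReal_pow (by positivity),
              ← ENNReal.ofReal_mul (by positivity)]
            congr 1
            ring
        _ ≤ ∫⁻ x in Icc (-1 : ℝ) 1, (maxOp eps f x) ^ 2 := by
            apply setLIntegral_mono' measurableSet_Icc
            intro x hx
            gcongr
            exact hptw x hx
        _ ≤ ∫⁻ x, (maxOp eps f x) ^ 2 := setLIntegral_le_lintegral _ _
    have hsmall := norm_fq K hq
    have hlt : ENNReal.ofReal C ^ 2 * ∫⁻ x, ‖f x‖ₑ ^ 2 < ∫⁻ x, (maxOp eps f x) ^ 2 := by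
      calc ENNReal.ofReal C ^ 2 * ∫⁻ x, ‖f x‖ₑ ^ 2
          ≤ ENNReal.ofReal (C ^ 2) * ENNReal.ofReal (2 * π * K) := by
            apply mul_le_mul' _ hsmall
            rcases le_total 0 C with hC | hC
            · rw [ENNReal.ofReal_pow hC]
            · rw [ENNReal.ofReal_of_nonpos hC]; simp
        _ = ENNReal.ofReal (C ^ 2 * (2 * π * K)) := (ENNReal.ofReal_mul (by positivity)).symm
        _ < ENNReal.ofReal (A ^ 2 * K ^ 2 / 8) := by
            rw [ENNReal.ofReal_lt_ofReal_iff (by positivity)]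
            rw [div_lt_iff₀ (by positivity)] at hK
            nlinarith
        _ ≤ _ := hbig
    rw [eLpNorm_eq_lintegral_rpow_enorm_toReal two_ne_zero ENNReal.ofNat_ne_top,
      eLpNorm_eq_lintegral_rpow_enorm_toReal two_ne_zero ENNReal.ofNat_ne_top]
    have e2 : (2 : ENNReal).toReal = 2 := by norm_num
    rw [e2]
    have e3 : ENNReal.ofReal C = (ENNReal.ofReal C ^ 2) ^ (1 / 2 : ℝ) := by
      rw [← ENNReal.rpow_natCast, ← ENNReal.rpow_mul]
      norm_num
    rw [e3, ← ENNReal.mul_rpow_of_nonneg _ _ (by norm_num)]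
    apply ENNReal.rpow_lt_rpow _ (by norm_num)
    simpa using hlt

end Pool.Agent.Results.MP_45ee41_an.NoUniformBound
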